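import Pool.Agent.H98.EU.SDefs

/-!
# Beta: remainders code sequences of standard length in every model of `PA⁻`
-/

set_option autoImplicit false
set_option linter.unusedSectionVars false

namespace Pool.Agent.H61.EU

open Pool.Agent.H98.EU

section

variable {M : Type} [CommSemiring M] [LinearOrder M]

theorem bt_le (P : PAminus M) {a b i r : M} (h : Bt a b i r) : r ≤ a := by
  obtain ⟨q, hq, _⟩ := h
  rw [hq, add_comm]
  exact P.le_add _ _

private theorem rem_aux (P : PAminus M) {q q' m r r' : M} (h : q * m + r = q' * m + r') (hr : r < m)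
    (hq : q < q') : False := by
  have h1 := P.succ_le hq
  have h2 : (q + 1) * m ≤ q' * m := P.mul_le h1 m
  have h3 : q * m + m ≤ q' * m := by
    have e : (q + 1) * m = q * m + m := by ring
    rwa [e] at h2
  have h4 : q * m + r < q * m + m := by
    have := P.add_lt r m (q * m) hr
    rwa [add_comm r, add_comm m] at this
  have h5 : q' * m ≤ q' * m + r' := P.le_add _ _
  exact absurd h (lt_of_lt_of_le h4 (h3.trans h5)).ne

theorem bt_unique (P : PAminus M) {a b i r r' : M} (h : Bt a b i r) (h' : Bt a b i r') : r = r' := by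
  obtain ⟨q, hq, hr⟩ := h
  obtain ⟨q', hq', hr'⟩ := h'
  rw [hq] at hq'
  rcases lt_trichotomy q q' with h1 | h1 | h1
  · exact (rem_aux P hq' hr h1).elim
  · subst h1
    rw [add_comm, add_comm (q * _) r'] at hq'
    exact P.add_cancel hq'
  · exact (rem_aux P hq'.symm hr' h1).elim

/-- congruence -/
private def Cg (m x y : M) : Prop := ∃ p q, x + p * m = y + q * m

private theorem cg_refl (m x : M) : Cg m x x := ⟨0, 0, rfl⟩

private theorem cg_trans {m x y z : M} (h : Cg m x y) (h' : Cg m y z) : Cg m x z := by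
  obtain ⟨p, q, h1⟩ := h
  obtain ⟨p', q', h2⟩ := h'
  refine ⟨p + p', q + q', ?_⟩
  calc x + (p + p') * m = (x + p * m) + p' * m := by ring
    _ = (y + q * m) + p' * m := by rw [h1]
    _ = (y + p' * m) + q * m := by ring
    _ = (z + q' * m) + q * m := by rw [h2]
    _ = z + (q + q') * m := by ring

private theorem cg_add {m x y x' y' : M} (h : Cg m x y) (h' : Cg m x' y') : Cg m (x + x') (y + y') := by
  obtain ⟨p, q, h1⟩ := h
  obtain ⟨p', q', h2⟩ := h'
  refine ⟨p + p', q + q', ?_⟩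
  calc x + x' + (p + p') * m = (x + p * m) + (x' + p' * m) := by ring
    _ = (y + q * m) + (y' + q' * m) := by rw [h1, h2]
    _ = y + y' + (q + q') * m := by ring

private theorem cg_mul_right {m x y : M} (h : Cg m x y) (z : M) : Cg m (x * z) (y * z) := by
  obtain ⟨p, q, h1⟩ := h
  refine ⟨p * z, q * z, ?_⟩
  calc x * z + p * z * m = (x + p * m) * z := by ring
    _ = (y + q * m) * z := by rw [h1]
    _ = y * z + q * z * m := by ring

private theorem cg_rem (P : PAminus M) {m x y : M} (h : Cg m x y) (hy : y < m) : ∃ d, x = d * m + y := by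
  obtain ⟨p, q, h1⟩ := h
  rcases lt_or_ge q p with h2 | h2
  · exfalso
    obtain ⟨d, hd⟩ := P.sub q p h2
    have hd0 : 0 < d := by
      rcases (P.nonneg d).lt_or_eq with h0 | h0
      · exact h0
      · rw [← h0, add_zero] at hd
        exact absurd hd h2.ne
    have h3 : y = x + d * m := by
      apply P.add_cancel (z := q * m)
      rw [← h1, ← hd]
      ring
    have h4 : m ≤ d * m := by
      have := P.mul_le (P.discrete d hd0) m
      rwa [one_mul] at this
    have h5 : d * m ≤ x + d * m := by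
      rw [add_comm]
      exact P.le_add _ _
    rw [h3] at hy
    exact absurd (h4.trans h5) (not_le.2 hy)
  · rcases h2.lt_or_eq with h2 | h2
    · obtain ⟨d, hd⟩ := P.sub p q h2
      refine ⟨d, P.add_cancel (z := p * m) ?_⟩
      rw [h1, ← hd]
      ring
    · refine ⟨0, P.add_cancel (z := p * m) ?_⟩
      rw [h1, h2]
      ring

/-- the number `b` -/
private def bb (M : Type) [CommSemiring M] (N : ℕ) (W : M) : M := (N.factorial : M) * (W + 1)

/-- the moduli -/
private def mm (N : ℕ) (W : M) (i : ℕ) : M := 1 + ((i : M) + 1) * bb M N W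

private theorem bb_bd (P : PAminus M) (N : ℕ) (W : M) : bb M N W ≤ (W + 2) ^ (N.factorial + 1) := by
  have h1 : W + 1 ≤ (W + 2) ^ 1 := by
    rw [pow_one, ← one_add_one_eq_two, ← add_assoc]
    exact P.le_add _ _
  exact P.mul_bd (P.cast_bd W _) h1

private theorem suc_bd (P : PAminus M) (W : M) (i : ℕ) : (i : M) + 1 ≤ (W + 2) ^ (i + 1) := by
  have := P.cast_bd W (i + 1)
  rwa [Nat.cast_succ] at this

private theorem mm_bd (P : PAminus M) (N : ℕ) (W : M) (i : ℕ) :
    mm N W i ≤ (W + 2) ^ (0 + ((i + 1) + (N.factorial + 1)) + 1) :=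
  P.add_bd (by rw [pow_zero]) (P.mul_bd (suc_bd P W i) (bb_bd P N W))

private theorem inv_step (N : ℕ) {j k : ℕ} (hjk : j < k) (hk : k < N) : ∃ E : ℕ, ∀ (M : Type) [CommSemiring M]
    [LinearOrder M], PAminus M → ∀ W : M, ∃ g : M, mm N W j * g ≤ (W + 2) ^ E ∧ Cg (mm N W k) (mm N W j * g) 1 := by
  refine ⟨(0 + ((j + 1) + (N.factorial + 1)) + 1) + (((k + 1) ^ 3 + (N.factorial + 1)) + (N.factorial / (k - j) + 1)),
    fun M _ _ P W => ⟨(((k + 1) ^ 3 : ℕ) : M) * bb M N W * (((N.factorial / (k - j) : ℕ) : M) * (W + 1)), ?_, ?_⟩⟩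
  · exact P.mul_bd (mm_bd P N W j) (P.mul_bd (P.mul_bd (P.cast_bd W _) (bb_bd P N W))
      (P.mul_bd (P.cast_bd W _) (show W + 1 ≤ (W + 2) ^ 1 by
        rw [pow_one, ← one_add_one_eq_two, ← add_assoc]
        exact P.le_add _ _)))
  · have hdvd : (k - j) ∣ N.factorial := Nat.dvd_factorial (by omega) (by omega)
    have hb : bb M N W = ((k - j : ℕ) : M) * (((N.factorial / (k - j) : ℕ) : M) * (W + 1)) := by
      unfold bb
      rw [← mul_assoc, ← Nat.cast_mul, Nat.mul_div_cancel' hdvd]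
    have hkj : (k : M) = (j : M) + ((k - j : ℕ) : M) := by
      rw [← Nat.cast_add]
      congr 1
      omega
    have hcast : (((k + 1) ^ 3 : ℕ) : M) = ((k : M) + 1) ^ 3 := by push_cast; ring
    unfold mm
    rw [hcast]
    generalize bb M N W = b at hb ⊢
    generalize ((N.factorial / (k - j) : ℕ) : M) * (W + 1) = c at hb ⊢
    generalize ((k - j : ℕ) : M) = t at hb hkj ⊢
    refine ⟨(((k : M) + 1) * b) ^ 2 + 1, ((k : M) + 1) ^ 3 * b * c + ((k : M) + 1) * b, ?_⟩
    -- `m_j g + (u ^ 2 + 1) m_k = 1 + (g + u) m_k`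
    have e1 : (1 + ((k : M) + 1) * b) * (((k : M) + 1) ^ 3 * b * c) =
        (1 + ((j : M) + 1) * b) * (((k : M) + 1) ^ 3 * b * c) + (((k : M) + 1) * b) ^ 3 := by
      have e2 : (((k : M) + 1) * b) ^ 3 = (((k : M) + 1) ^ 3 * b * b) * (t * c) := by
        rw [← hb]
        ring
      rw [e2]
      nth_rewrite 1 [hkj]
      ring
    calc (1 + ((j : M) + 1) * b) * (((k : M) + 1) ^ 3 * b * c) +
          ((((k : M) + 1) * b) ^ 2 + 1) * (1 + ((k : M) + 1) * b)
        = ((1 + ((j : M) + 1) * b) * (((k : M) + 1) ^ 3 * b * c) + (((k : M) + 1) * b) ^ 3) +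
          (1 + (((k : M) + 1) * b) * (1 + ((k : M) + 1) * b)) := by ring
      _ = (1 + ((k : M) + 1) * b) * (((k : M) + 1) ^ 3 * b * c) +
          (1 + (((k : M) + 1) * b) * (1 + ((k : M) + 1) * b)) := by rw [← e1]
      _ = 1 + (((k : M) + 1) ^ 3 * b * c + ((k : M) + 1) * b) * (1 + ((k : M) + 1) * b) := by ring

private theorem inv_all (N k : ℕ) (hk : k < N) : ∀ j, j ≤ k → ∃ E : ℕ, ∀ (M : Type) [CommSemiring M]
    [LinearOrder M], PAminus M → ∀ W : M, ∃ G : M, (∏ i ∈ Finset.range j, mm N W i) * G ≤ (W + 2) ^ E ∧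
      Cg (mm N W k) ((∏ i ∈ Finset.range j, mm N W i) * G) 1 := by
  intro j
  induction j with
  | zero =>
    intro _
    refine ⟨0, fun M _ _ P W => ⟨1, ?_, ?_⟩⟩
    · simp
    · simp only [Finset.range_zero, Finset.prod_empty, mul_one]
      exact cg_refl _ _
  | succ j ih =>
    intro hj
    obtain ⟨E1, h1⟩ := ih (by omega)
    obtain ⟨E2, h2⟩ := inv_step N (j := j) (k := k) (by omega) hk
    refine ⟨E1 + E2, fun M _ _ P W => ?_⟩
    obtain ⟨G, hG1, hG2⟩ := h1 M P W
    obtain ⟨g, hg1, hg2⟩ := h2 M P W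
    have e : (∏ i ∈ Finset.range (j + 1), mm N W i) * (G * g) =
        ((∏ i ∈ Finset.range j, mm N W i) * G) * (mm N W j * g) := by
      rw [Finset.prod_range_succ]
      ring
    refine ⟨G * g, ?_, ?_⟩
    · rw [e]
      exact P.mul_bd hG1 hg1
    · rw [e]
      refine cg_trans (cg_mul_right hG2 _) ?_
      rw [one_mul]
      exact hg2

private theorem crt (N : ℕ) : ∀ k, k ≤ N → ∃ E : ℕ, ∀ (M : Type) [CommSemiring M] [LinearOrder M], PAminus M →
    ∀ (w : ℕ → M) (W : M), (∀ i < N, w i ≤ W) → ∃ a : M, a ≤ (W + 2) ^ E ∧ ∀ i < k, Cg (mm N W i) a (w i) := by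
  intro k
  induction k with
  | zero =>
    intro _
    exact ⟨0, fun M _ _ P w W _ => ⟨0, P.nonneg _, fun i hi => absurd hi (Nat.not_lt_zero i)⟩⟩
  | succ k ih =>
    intro hk
    obtain ⟨E1, h1⟩ := ih (by omega)
    obtain ⟨E2, h2⟩ := inv_all N k (by omega) k le_rfl
    refine ⟨E1 + (E2 + (1 + (((k + 1) + (N.factorial + 1)) + E1) + 1)) + 1, fun M _ _ P w W hw => ?_⟩
    obtain ⟨a, ha1, ha2⟩ := h1 M P w W hw
    obtain ⟨G, hG1, hG2⟩ := h2 M P W
    refine ⟨a + ((∏ i ∈ Finset.range k, mm N W i) * G) * (w k + (((k : M) + 1) * bb M N W) * a), ?_, ?_⟩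
    · exact P.add_bd ha1 (P.mul_bd hG1 (P.add_bd (P.le_pow_one (hw k (by omega)))
        (P.mul_bd (P.mul_bd (suc_bd P W k) (bb_bd P N W)) ha1)))
    · intro i hi
      rcases Nat.lt_succ_iff_lt_or_eq.1 hi with h | h
      · refine cg_trans ?_ (ha2 i h)
        obtain ⟨c, hc⟩ := Finset.dvd_prod_of_mem (mm N W) (Finset.mem_range.2 h)
        refine ⟨0, c * G * (w k + (((k : M) + 1) * bb M N W) * a), ?_⟩
        rw [hc]
        ring
      · subst h
        refine cg_trans (cg_add (cg_refl _ a) (cg_mul_right hG2 _)) ?_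
        refine ⟨0, a, ?_⟩
        unfold mm
        ring

end

theorem beta (N : ℕ) : ∃ E : ℕ, ∀ (M : Type) [CommSemiring M] [LinearOrder M], PAminus M → ∀ (w : ℕ → M) (W : M),
    (∀ i < N, w i ≤ W) → ∃ a b : M, a ≤ (W + 2) ^ E ∧ b ≤ (W + 2) ^ E ∧ ∀ i < N, Bt a b (i : M) (w i) := by
  obtain ⟨E, hE⟩ := crt N N le_rfl
  refine ⟨E + (N.factorial + 1), fun M _ _ P w W hw => ?_⟩
  obtain ⟨a, ha1, ha2⟩ := hE M P w W hw
  refine ⟨a, bb M N W, ha1.trans (P.pow_mono W (by omega)), (bb_bd P N W).trans (P.pow_mono W (by omega)), fun i hi => ?_⟩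
  have hlt : w i < mm N W i := by
    have h1 : W + 1 ≤ bb M N W := by
      unfold bb
      have h0 : (1 : M) ≤ (N.factorial : M) := by
        obtain ⟨t, ht⟩ : ∃ t, N.factorial = t + 1 := ⟨N.factorial - 1, by have := N.factorial_pos; omega⟩
        rw [ht, Nat.cast_succ, add_comm]
        exact P.le_add _ _
      have := P.mul_le h0 (W + 1)
      rwa [one_mul] at this
    have h2 : bb M N W ≤ mm N W i := by
      unfold mm
      have e : 1 + ((i : M) + 1) * bb M N W = bb M N W + (1 + (i : M) * bb M N W) := by ring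
      rw [e]
      exact P.le_add _ _
    exact lt_of_le_of_lt (hw i hi) (lt_of_lt_of_le (P.lt_succ W) (h1.trans h2))
  obtain ⟨d, hd⟩ := cg_rem P (ha2 i hi) hlt
  exact ⟨d, hd, hlt⟩

end Pool.Agent.H61.EU
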